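import Mathlib
import Pool.Agent.H32.RFW

open Set Filter Function

namespace Pool.Agent.Results.MP_e112c8_lc.InstanceOne

open Pool.Agent.H32 UFA UFB RFW

theorem result (f : ℕ → Ultrafilter ℕ) (u : Ultrafilter ℕ) (hi : Injective f)
    (hd : IsDiscrete (range f)) (hu : DWP u) (hf : ∀ i, DWP (f i)) : u.bind f ∈ wf 2 := by
  obtain ⟨ρ, h⟩ := part_of_discrete hi hd
  obtain ⟨a, ha⟩ := two hu.mn (fun i => (hf i).mn) h
  obtain ⟨b, hb⟩ := hu.mn.wf
  have := Order.succ_le_of_lt (a.rank_lt_of_rel (strict h fun i => (hf i).1))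
  rw [hb, Order.succ_eq_add_one, one_add_one_eq_two] at this
  exact ⟨a, ha.antisymm this⟩

end Pool.Agent.Results.MP_e112c8_lc.InstanceOne
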