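import Mathlib
import Pool.Agent.H32.RFW

open Set Filter Function

namespace Pool.Agent.Results.MP_e112c8_lc.LevelFails

open Pool.Agent.H32 UFA UFB RFW

theorem result : ∃ (f : ℕ → Ultrafilter ℕ) (u : Ultrafilter ℕ), Injective f ∧
    IsDiscrete (range f) ∧ u ∈ wf 2 ∧ (∀ i, f i ∈ wf 2) ∧ u.bind f ∉ wf 3 := by
  obtain ⟨w, hw⟩ : ∃ w, Mn w := Kun.exists_min
  have m : ∀ i, Mn (w.map (Nat.pair i)) := fun i => ⟨np_map hw.1 i, fun v g ρ hv hg hn e => by
    have k : {j | range (Nat.pair i) ∈ g j} ∈ v :=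
      (e ▸ range_mem_map : range (Nat.pair i) ∈ v.bind g)
    obtain ⟨σ, s1, s2, s3⟩ := exists_ext hv k
    have z : ∀ j, ((g (σ j)).map fun k => k.unpair.2).map (Nat.pair i) = g (σ j) := fun j =>
      (map_congr (v := g (σ j)) (f := Nat.pair i ∘ fun k => k.unpair.2) (f' := id)
        (mem_of_superset (s2 j) (by rintro _ ⟨n, rfl⟩; simp))).trans rfl
    refine hw.2 v (fun j => (g (σ j)).map fun k => k.unpair.2) (invFun σ ∘ ρ ∘ Nat.pair i) hv
      (fun j => ?_) (mem_of_superset (inter_mem hn s3) fun j ⟨j1, j2⟩ =>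
        NP.of_RK (x := g (σ j)) (by rw [j2]; exact j1) ⟨_, z j⟩) ?_
    · rw [← Ultrafilter.map_map, ← Ultrafilter.map_map, z, hg, Ultrafilter.map_pure,
        leftInverse_invFun s1]
    · rw [← col_snd w i, e, UFA.map_bind]
      exact UFA.bind_congr (mem_of_superset s3 fun j hj => by
        simp only [mem_ofPred_eq] at hj ⊢
        rw [hj])⟩
  have hx := tens_np hw.1 w
  have l1 : RFlt w (tens w w) := strict (col_fst w) (np_map hw.1)
  have x2 : tens w w ∈ wf 2 := by
    obtain ⟨a, ha⟩ := two hw m (col_fst w)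
    obtain ⟨b, hb⟩ := hw.wf
    have := Order.succ_le_of_lt (a.rank_lt_of_rel l1)
    rw [hb, Order.succ_eq_add_one, one_add_one_eq_two] at this
    exact ⟨a, ha.antisymm this⟩
  refine ⟨_, _, (discrete_of_part (col_fst (tens w w))).1, (discrete_of_part (col_fst _)).2, x2,
    fun i => wf_congr (col hx i).2 (col hx i).1 x2, fun ⟨a, ha⟩ => ?_⟩
  have l2 : RFlt (tens w w) (tens (tens w w) w) := strict (col_fst w) (np_map hw.1)
  have l3 := strict (u := tens (tens w w) w)
    (g := fun k => (w.map (Nat.pair k.unpair.2)).map (Nat.pair k.unpair.1))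
    (τ := fun k => Nat.pair k.unpair.1 k.unpair.2.unpair.1)
    (fun k => map_eq_pure.2 (univ_mem' (f := (w : Filter ℕ)) fun n => by simp))
    fun k => np_map (np_map hw.1 _) _
  have e : (tens (tens w w) w).bind (fun k => (w.map (Nat.pair k.unpair.2)).map
      (Nat.pair k.unpair.1)) = (tens w w).bind fun n => (tens w w).map (Nat.pair n) := by
    rw [tens, UFA.bind_bind]
    congr 1
    funext n
    rw [UFA.bind_map, tens, UFA.map_bind]
    congr 1
    funext m
    simp
  rw [e] at l3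
  obtain ⟨b, hb⟩ := x2
  have k1 := Order.succ_le_of_lt ((a.inv l3).rank_lt_of_rel l2)
  have k2 := a.rank_lt_of_rel l3
  rw [hb, Order.succ_eq_add_one, two_add_one_eq_three] at k1
  exact absurd (ha ▸ k1) (not_le.2 k2)

end Pool.Agent.Results.MP_e112c8_lc.LevelFails
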